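import Pool.Agent.H16.FK.TargetsB

/-!
# Row SPD of the board `hci_modules`: if the limit is split then the far rows are split

Also general lemmas on runs of programs: `ev_run_append`, `prg_box_append`, `mem_box`.
-/

set_option autoImplicit false

namespace Pool.Agent.H96.FK

open Set Pool.Agent.H75.HCI Pool.Agent.H16.FK Pool.Agent.H71.HCI

variable {C : Type} {kc ku k : ℕ}

/-- a run of a concatenation -/
theorem ev_run_append (D : Dat kc ku k) (σ τ : List (ℕ × ℕ × ℕ)) (st : Sta kc ku k)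
    (φ : Sta kc ku k → Prop) :
    (∀ᶠ s in (run D (σ ++ τ) st : Filter (Sta kc ku k)), φ s) ↔
      ∀ᶠ s1 in (run D σ st : Filter (Sta kc ku k)),
        ∀ᶠ s in (run D τ s1 : Filter (Sta kc ku k)), φ s := by
  induction σ generalizing st with
  | nil =>
    have h1 : run D ([] : List (ℕ × ℕ × ℕ)) st = pure st := rfl
    rw [h1, Ultrafilter.coe_pure, Filter.eventually_pure, List.nil_append]
  | cons it σ ih =>
    have h1 : run D (it :: σ ++ τ) st = (step D it st).bind (run D (σ ++ τ)) := rfl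
    have h2 : run D (it :: σ) st = (step D it st).bind (run D σ) := rfl
    rw [h1, h2, mem_bind, mem_bind]
    refine Filter.eventually_congr (Filter.Eventually.of_forall fun s => ?_)
    exact ih s

theorem ev_run_cons (D : Dat kc ku k) (it : ℕ × ℕ × ℕ) (σ : List (ℕ × ℕ × ℕ))
    (st : Sta kc ku k) (φ : Sta kc ku k → Prop) :
    (∀ᶠ s in (run D (it :: σ) st : Filter (Sta kc ku k)), φ s) ↔
      ∀ᶠ s1 in (step D it st : Filter (Sta kc ku k)),
        ∀ᶠ s in (run D σ s1 : Filter (Sta kc ku k)), φ s := Iff.rfl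

theorem ev_run_nil (D : Dat kc ku k) (st : Sta kc ku k) (φ : Sta kc ku k → Prop) :
    (∀ᶠ s in (run D [] st : Filter (Sta kc ku k)), φ s) ↔ φ st := by
  have h1 : run D ([] : List (ℕ × ℕ × ℕ)) st = pure st := rfl
  rw [h1, Ultrafilter.coe_pure, Filter.eventually_pure]

theorem ev_step0 (D : Dat kc ku k) (n x : ℕ) (st : Sta kc ku k) (φ : Sta kc ku k → Prop) :
    (∀ᶠ s in (step D (n, 0, x) st : Filter (Sta kc ku k)), φ s) ↔
      ∀ᶠ j in (D.UU : Filter ℕ), φ ⟨Function.update st.j n j, fun p =>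
        if p.1 = n then
          Sum.elim (fun b => Fin.addCases (fun b' => D.c j b') (fun _ => st.pt p) b)
            (fun _ => st.pt p) p.2
        else st.pt p⟩ := by
  unfold step
  exact Iff.rfl

theorem ev_step1 (D : Dat kc ku k) (n m : ℕ) (st : Sta kc ku k) (φ : Sta kc ku k → Prop) :
    (∀ᶠ s in (step D (n, 1, m) st : Filter (Sta kc ku k)), φ s) ↔
      ∀ᶠ y in (D.V (st.j n) : Filter (Fin k → ℕ)), φ ⟨st.j, fun p =>
        if p.1 = n then
          Sum.elim (fun _ => st.pt p) (fun q => if q.1 = m then y q.2 else st.pt p) p.2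
        else st.pt p⟩ := by
  unfold step
  exact Iff.rfl

theorem mem_box {n s : ℕ} {a : ℕ × ℕ × ℕ} : a ∈ box n s ↔ a.1 < n ∧
    (a.2 = (0, 0) ∨ (a.2.1 = 1 ∧ a.2.2 < s) ∨ a.2 = (2, 0)) := by
  obtain ⟨i, u, m⟩ := a
  unfold box
  simp only [List.mem_flatMap, List.mem_range, List.mem_append, List.mem_cons, List.mem_map,
    List.mem_singleton, Prod.mk.injEq, List.not_mem_nil, or_false]
  constructor
  · rintro ⟨i', hi', h⟩
    rcases h with (⟨h1, h2⟩ | ⟨m', hm', h1, h2, h3⟩) | ⟨h1, h2⟩
    · subst h1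
      exact ⟨hi', Or.inl h2⟩
    · subst h1 h2 h3
      exact ⟨hi', Or.inr (Or.inl ⟨rfl, hm'⟩)⟩
    · subst h1
      exact ⟨hi', Or.inr (Or.inr h2)⟩
  · rintro ⟨hi, h | ⟨h1, h2⟩ | h⟩
    · exact ⟨i, hi, Or.inl (Or.inl ⟨rfl, h⟩)⟩
    · exact ⟨i, hi, Or.inl (Or.inr ⟨m, h2, rfl, h1.symm, rfl⟩)⟩
    · exact ⟨i, hi, Or.inr ⟨rfl, h⟩⟩

theorem box_pairwise (n s : ℕ) : (box n s).Pairwise ilt := by
  unfold box
  rw [List.pairwise_flatMap]
  constructor
  · intro i _
    rw [List.cons_append, List.pairwise_cons]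
    constructor
    · intro a ha
      simp only [List.mem_append, List.mem_map, List.mem_range, List.mem_singleton] at ha
      rcases ha with ⟨m, _, rfl⟩ | rfl
      · exact Or.inr ⟨rfl, Or.inl (by norm_num)⟩
      · exact Or.inr ⟨rfl, Or.inl (by norm_num)⟩
    · rw [List.pairwise_append]
      refine ⟨?_, List.pairwise_singleton _ _, ?_⟩
      · rw [List.pairwise_map]
        refine List.pairwise_lt_range.imp ?_
        intro a b hab
        exact Or.inr ⟨rfl, Or.inr ⟨rfl, hab⟩⟩
      · intro a ha b hb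
        simp only [List.mem_map, List.mem_range, List.mem_singleton] at ha hb
        obtain ⟨m, _, rfl⟩ := ha
        subst hb
        exact Or.inr ⟨rfl, Or.inl (by norm_num)⟩
  · refine List.pairwise_lt_range.imp ?_
    intro i i' hii a ha b hb
    have h1 : a.1 = i := by
      simp only [List.mem_append, List.mem_cons, List.mem_map, List.mem_range,
        List.not_mem_nil, or_false] at ha
      rcases ha with (rfl | ⟨m, _, rfl⟩) | rfl <;> rfl
    have h2 : b.1 = i' := by
      simp only [List.mem_append, List.mem_cons, List.mem_map, List.mem_range,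
        List.not_mem_nil, or_false] at hb
      rcases hb with (rfl | ⟨m, _, rfl⟩) | rfl <;> rfl
    exact Or.inl (by rw [h1, h2]; exact hii)

/-- a box followed by items of the chunk `n` -/
theorem prg_box_append (n s : ℕ) (τ : List (ℕ × ℕ × ℕ)) (h1 : ∀ a ∈ τ, a.1 = n)
    (h2 : τ.Pairwise ilt) (h3 : ∀ a ∈ τ, a.2.1 ≤ 2 ∧ (a.2.1 ≠ 1 → a.2.2 = 0))
    (h4 : ∀ a ∈ τ, (n, 0, 0) ∈ τ) : Prg ∅ (box n s ++ τ) where
  ord := by
    rw [List.pairwise_append]
    refine ⟨box_pairwise n s, h2, fun a ha b hb => Or.inl ?_⟩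
    rw [h1 b hb]
    exact (mem_box.1 ha).1
  val := by
    intro a ha
    rcases List.mem_append.1 ha with ha | ha
    · obtain ⟨-, h | ⟨h5, -⟩ | h⟩ := mem_box.1 ha
      · rw [h]
        simp
      · rw [h5]
        simp
      · rw [h]
        simp
    · exact h3 a ha
  aft := fun _ _ b hb => absurd hb (by simp)
  sta := by
    intro a ha
    refine Or.inl ?_
    rcases List.mem_append.1 ha with ha | ha
    · exact List.mem_append_left _ (mem_box.2 ⟨(mem_box.1 ha).1, Or.inl rfl⟩)
    · rw [h1 a ha]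
      exact List.mem_append_right _ (h4 a ha)

/-- a bound for the rows of the points of a list -/
theorem exists_row_bound (l : List (Idx (kc + ku) k)) :
    ∃ s : ℕ, ∀ p ∈ l, ∀ q, p.2 = Sum.inr q → q.1 < s := by
  induction l with
  | nil => exact ⟨0, by simp⟩
  | cons p l ih =>
    obtain ⟨s, hs⟩ := ih
    refine ⟨s + 1 + Sum.elim (fun _ => 0) (fun q => q.1) p.2, fun p' hp' q hq => ?_⟩
    rcases List.mem_cons.1 hp' with rfl | hp'
    · rw [hq, Sum.elim_inr]
      omega
    · have := hs p' hp' q hq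
      omega

theorem itp_mem_box {n s : ℕ} {p : Idx (kc + ku) k} (h1 : p.1 < n)
    (h2 : ∀ q, p.2 = Sum.inr q → q.1 < s) : itp p ∈ box n s := by
  rw [mem_box]
  obtain ⟨i, u⟩ := p
  rcases u with b | q
  · refine ⟨h1, ?_⟩
    by_cases hb : b.val < kc
    · exact Or.inl (by simp [itp, hb])
    · exact Or.inr (Or.inr (by simp [itp, hb]))
  · exact ⟨h1, Or.inr (Or.inl ⟨rfl, h2 q rfl⟩)⟩

/-- the word of the marks, the points of `l` and the row -/
def wd (D : Dat kc ku k) (l : List (Idx (kc + ku) k)) (s : Sta kc ku k) (w : List ℕ) :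
    List (ℕ ⊕ Fin k) :=
  sel (D.z.map Sum.inl ++ (l.map fun p => Sum.inl (s.pt p)) ++ (List.finRange k).map Sum.inr) w

theorem wd_map (D : Dat kc ku k) (l : List (Idx (kc + ku) k)) (s : Sta kc ku k) (w : List ℕ)
    (x : Fin k → ℕ) : (wd D l s w).map (Sum.elim id x) =
      sel (D.z ++ (l.map s.pt ++ (List.finRange k).map x)) w := by
  unfold wd
  rw [← sel_map]
  congr 1
  simp only [List.map_append, List.map_map, List.append_assoc]
  congr 1
  · conv_rhs => rw [← List.map_id D.z]
    rfl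

/-- the value at a row -/
theorem val_row (hTDV : T_TDV) {M : List ℕ → C} (D : Dat kc ku k) (hM : FinL M) (n s : ℕ)
    (l : List (Idx (kc + ku) k)) (hl : Blw n l) (hs : ∀ p ∈ l, ∀ q, p.2 = Sum.inr q → q.1 < s)
    (w : List ℕ) : ∀ᶠ s1 in (run D (box n s) st0 : Filter (Sta kc ku k)),
      typ M (limU D.UU D.V) (wd D l s1 w) = TD M D (l ++ row n 0) w := by
  have hP : Prg ∅ (box n s ++ [(n, 0, 0), (n, 1, 0)]) := by
    refine prg_box_append n s _ ?_ ?_ ?_ ?_
    · simp
    · simp [ilt]
    · simp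
    · simp
  have hI : ∀ p ∈ l ++ row n 0, itp (kc := kc) (ku := ku) (k := k) p ∈
      box n s ++ [(n, 0, 0), (n, 1, 0)] := by
    intro p hp
    rcases List.mem_append.1 hp with hp | hp
    · exact List.mem_append_left _ (itp_mem_box (hl p hp) (hs p hp))
    · refine List.mem_append_right _ ?_
      simp only [row, prt, List.mem_map] at hp
      obtain ⟨y, -, rfl⟩ := hp
      simp [itp]
  have h1 := hTDV C kc ku k M D hM (l ++ row n 0) _ hP hI st0 w
  rw [ev_run_append] at h1
  filter_upwards [h1] with s1 h2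
  rw [ev_run_cons, ev_step0] at h2
  refine typ_eq ?_
  rw [ev_limU]
  filter_upwards [h2] with j h3
  rw [ev_run_cons, ev_step1] at h3
  simp only [Function.update_self] at h3
  filter_upwards [h3] with x h4
  rw [ev_run_nil] at h4
  rw [wd_map, ← h4]
  congr 2
  rw [List.map_append]
  congr 1
  · congr 1
    · refine List.map_congr_left fun p hp => ?_
      have hp1 : p.1 ≠ n := (hl p hp).ne
      simp [hp1]
    · simp only [row, prt, List.map_map]
      refine List.map_congr_left fun y _ => ?_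
      simp

/-- the value at a split row -/
theorem val_srow (hTDV : T_TDV) {M : List ℕ → C} (D : Dat kc ku k) (hM : FinL M) (n s : ℕ)
    (l : List (Idx (kc + ku) k)) (hl : Blw n l) (hs : ∀ p ∈ l, ∀ q, p.2 = Sum.inr q → q.1 < s)
    (b : Fin k → Bool) (w : List ℕ) : ∀ᶠ s1 in (run D (box n s) st0 : Filter (Sta kc ku k)),
      ∀ᶠ j in (D.UU : Filter ℕ), typ M (mixU (D.V j) b) (wd D l s1 w) =
        TD M D (l ++ srow n (bh b)) w := by
  have hP : Prg ∅ (box n s ++ [(n, 0, 0), (n, 1, 0), (n, 1, 1)]) := by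
    refine prg_box_append n s _ ?_ ?_ ?_ ?_
    · simp
    · simp [ilt]
    · simp
    · simp
  have hI : ∀ p ∈ l ++ srow n (bh b), itp (kc := kc) (ku := ku) (k := k) p ∈
      box n s ++ [(n, 0, 0), (n, 1, 0), (n, 1, 1)] := by
    intro p hp
    rcases List.mem_append.1 hp with hp | hp
    · exact List.mem_append_left _ (itp_mem_box (hl p hp) (hs p hp))
    · refine List.mem_append_right _ ?_
      simp only [srow, List.mem_map] at hp
      obtain ⟨y, -, rfl⟩ := hp
      cases hb : b y <;> simp [itp, bh, hb]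
  have h1 := hTDV C kc ku k M D hM (l ++ srow n (bh b)) _ hP hI st0 w
  rw [ev_run_append] at h1
  filter_upwards [h1] with s1 h2
  rw [ev_run_cons, ev_step0] at h2
  filter_upwards [h2] with j h3
  refine typ_eq ?_
  rw [ev_run_cons, ev_step1] at h3
  simp only [Function.update_self] at h3
  have hmix : ∀ φ : (Fin k → ℕ) → Prop, (∀ᶠ z in (mixU (D.V j) b : Filter (Fin k → ℕ)), φ z) ↔
      ∀ᶠ x in (D.V j : Filter (Fin k → ℕ)), ∀ᶠ y in (D.V j : Filter (Fin k → ℕ)),
        φ (fun i => if b i then y i else x i) := fun φ => Iff.rfl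
  rw [hmix]
  filter_upwards [h3] with x h4
  rw [ev_run_cons, ev_step1] at h4
  simp only [Function.update_self] at h4
  filter_upwards [h4] with y h5
  rw [ev_run_nil] at h5
  rw [wd_map, ← h5]
  congr 2
  rw [List.map_append]
  congr 1
  · congr 1
    · refine List.map_congr_left fun p hp => ?_
      have hp1 : p.1 ≠ n := (hl p hp).ne
      simp [hp1]
    · simp only [srow, List.map_map]
      refine List.map_congr_left fun y _ => ?_
      cases hb : b y <;> simp [bh, hb]

/-- SPD: if the limit is split then the far rows are split. -/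
theorem pf_SPD (h1 : T_MXL) (h2 : T_TDV) : T_SPD := by
  intro C kc ku k M D hM hD hPP b hb heq
  refine ⟨bh b, ?_, fun n l hl => ?_⟩
  · obtain ⟨⟨y, hy⟩, ⟨y', hy'⟩⟩ := hb
    exact ⟨y, y', by simp [bh, hy, hy']⟩
  · funext w
    obtain ⟨s, hs⟩ := exists_row_bound l
    obtain ⟨s1, h3, h4⟩ := ((val_row h2 D hM n s l hl hs w).and
      (val_srow h2 D hM n s l hl hs b w)).exists
    have h5 := (h1 C k M D.UU D.V hM (hD.vN.mono fun j hj => hj.2) hPP b hb).1
    obtain ⟨j, h6, h7⟩ := (h4.and h5).exists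
    rw [← h3, ← h6, h7, heq]

end Pool.Agent.H96.FK
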